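import Mathlib
import Pool.Agent.Q266.Domb5

set_option autoImplicit false

namespace Pool.Agent.Results.MP_4af00a_nt.DombSum

open Finset

/-- `s_n = ∑_{k=0}^{n} C(n,k)^2 C(2k,k) C(2(n-k),n-k)`. -/
def s (n : ℕ) : ℕ := ∑ k ∈ range (n + 1),
  n.choose k ^ 2 * (2 * k).choose k * (2 * (n - k)).choose (n - k)

/-- The Fermat quotient `q_p(2) = (2^(p-1) - 1) / p`. -/
def q (p : ℕ) : ℚ := ((2 : ℚ) ^ (p - 1) - 1) / p

/-- The rationals `x` and `y` are congruent modulo `p ^ j`: the difference is `p ^ j` times a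
rational number whose denominator is prime to `p`. -/
def CongMod (p j : ℕ) (x y : ℚ) : Prop :=
  ∃ a b : ℤ, ¬ (p : ℤ) ∣ b ∧ x - y = (p : ℚ) ^ j * ((a : ℚ) / b)

/-- `a_m = 1 / (2 m^3 (m-1)) ∑_{n=0}^{m-1} (3n^2+n) 16^(m-1-n) s_n`. -/
def a (m : ℕ) : ℚ := 1 / (2 * (m : ℚ) ^ 3 * ((m : ℚ) - 1)) *
  ∑ n ∈ range m, (3 * (n : ℚ) ^ 2 + n) * 16 ^ (m - 1 - n) * (s n : ℚ)

theorem result :
    (∀ p : ℕ, p.Prime → 3 < p →
      CongMod p 6 (∑ n ∈ range p, (3 * (n : ℚ) ^ 2 + n) / 16 ^ n * (s n : ℚ))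
        (-4 * p ^ 4 * q p + 6 * p ^ 5 * q p ^ 2)) ∧
    (∀ m : ℕ, 1 < m → ∃ z : ℤ, a m = z ∧ (Odd z ↔ ∃ k : ℕ, m = 2 ^ k)) := by
  refine ⟨?_, ?_⟩
  · intro p hp h3
    haveI : Fact p.Prime := ⟨hp⟩
    have h4 : p ≠ 4 := by rintro rfl; exact absurd hp (by norm_num)
    obtain ⟨h, hP⟩ : ∃ h, p = 2 * h + 1 := by
      rcases hp.eq_two_or_odd' with h2 | h2
      · omega
      · exact h2
    obtain ⟨y, hy, e⟩ := Q266.Domb.main_I hP (by omega)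
    refine ⟨y.num, y.den, ?_, ?_⟩
    · intro hd
      exact hy (Int.natCast_dvd_natCast.1 hd)
    · have e2 : ((y.num : ℚ) / ((y.den : ℤ) : ℚ)) = y := by
        rw [Int.cast_natCast]; exact Rat.num_div_den y
      rw [e2]
      exact e
  · intro m hm
    obtain ⟨M, rfl⟩ : ∃ M, m = M + 2 := ⟨m - 2, by omega⟩
    obtain ⟨v, hv, hv'⟩ := Q266.Domb.Q2 M
    refine ⟨v, ?_, hv'⟩
    have h1 := Q266.Domb.sum_eq (M + 1)
    have e1 : ∑ n ∈ range (M + 2), (3 * (n : ℚ) ^ 2 + n) * 16 ^ (M + 2 - 1 - n) * (s n : ℚ) =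
        (((M + 1 : ℕ) : ℚ) + 1) ^ 3 * (12 * ((M : ℚ) + 1) * v) / 6 := by
      rw [← hv]
      have h2 : ∑ n ∈ range (M + 2), (3 * (n : ℚ) ^ 2 + n) * 16 ^ (M + 2 - 1 - n) * (s n : ℚ) =
          ∑ n ∈ range (M + 1 + 1), (3 * (n : ℚ) ^ 2 + n) * 16 ^ (M + 1 - n) *
            (Q266.Domb.s n : ℚ) := rfl
      rw [h2]
      linarith
    rw [a, e1]
    have n1 : (M : ℚ) + 1 ≠ 0 := by positivity
    have n2 : (M : ℚ) + 2 ≠ 0 := by positivity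
    push_cast
    rw [show (M : ℚ) + 2 - 1 = M + 1 by ring, show (M : ℚ) + 1 + 1 = M + 2 by ring]
    field_simp
    ring

end Pool.Agent.Results.MP_4af00a_nt.DombSum
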